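import Pool.Agent.P8H69.IE.Stm2

/-! # Project IE: the assembly -/

set_option autoImplicit false

namespace Pool.Agent.P8H69.IE

open Finset Pool.Agent.X80.SG

/-- The interlacing edges of the Schrijver graph `SG(n,k)`. -/
def IEdges (n k : ℕ) : Set (Sym2 (Vert n k)) :=
  {e | ∃ V W : Vert n k, e = s(V, W) ∧ (SG n k).Adj V W ∧ Interlacing V.1 W.1}

/-- An edge is critical: deleting it lowers the chromatic number. -/
def Crit (n k : ℕ) (e : Sym2 (Vert n k)) : Prop :=
  ((SG n k).deleteEdges {e}).chromaticNumber < (SG n k).chromaticNumber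

/-- the union of the ends of an edge -/
def un (n k : ℕ) : Sym2 (Vert n k) → Finset (ZMod n) :=
  Sym2.lift ⟨fun V W => V.1 ∪ W.1, fun _ _ => Finset.union_comm _ _⟩

theorem un_mk {n k : ℕ} (V W : Vert n k) : un n k s(V, W) = V.1 ∪ W.1 := rfl

theorem ilc_symm {n : ℕ} {V W : Finset (ZMod n)} (hd : Disjoint V W) (h : Ilc V W) : Ilc W V := by
  intro y hy r hr hyr hs
  rw [Finset.union_comm] at hy hyr
  have h1 := h y hy r hr hyr (fun s h1 h2 => by rw [Finset.union_comm]; exact hs s h1 h2)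
  have h2 : y ∈ V → y ∉ W := fun a b => Finset.disjoint_left.1 hd a b
  have h3 : y + (r : ZMod n) ∈ V → y + (r : ZMod n) ∉ W := fun a b => Finset.disjoint_left.1 hd a b
  rw [Finset.mem_union] at hy hyr
  tauto

theorem un_inj (fib : S_FIB) {n k : ℕ} [NeZero n] (hk : 1 ≤ k) : Set.InjOn (un n k) (IEdges n k) := by
  rintro _ ⟨V, W, rfl, hVW, hi⟩ _ ⟨V', W', rfl, hVW', hi'⟩ h
  rw [un_mk, un_mk] at h
  obtain ⟨z, hz⟩ : ∃ z, z ∈ V.1 := by
    have : 0 < V.1.card := by rw [V.2.1]; omega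
    exact Finset.card_pos.1 this
  have hzU : z ∈ V.1 ∪ W.1 := Finset.mem_union_left _ hz
  have hzU' : z ∈ V'.1 ∪ W'.1 := by rw [← h]; exact hzU
  rcases Finset.mem_union.1 hzU' with h1 | h1
  · obtain ⟨h2, h3⟩ := fib n V.1 W.1 V'.1 W'.1 hVW.2 hVW'.2 hi hi' h z hzU
      ⟨fun _ => h1, fun _ => hz⟩
    rw [Subtype.ext h2, Subtype.ext h3]
  · obtain ⟨h2, h3⟩ := fib n V.1 W.1 W'.1 V'.1 hVW.2 hVW'.2.symm hi (ilc_symm hVW'.2 hi')
      (by rw [h, Finset.union_comm]) z hzU ⟨fun _ => h1, fun _ => hz⟩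
    rw [Subtype.ext h2, Subtype.ext h3, Sym2.eq_swap]

theorem un_image (exi : S_EXI) {n k : ℕ} [NeZero n] (hk : 1 ≤ k) :
    un n k '' IEdges n k = ↑(Finset.powersetCard (2 * k) (Finset.univ : Finset (ZMod n))) := by
  ext Z
  rw [Finset.mem_coe, Finset.mem_powersetCard]
  constructor
  · rintro ⟨_, ⟨V, W, rfl, hVW, -⟩, rfl⟩
    refine ⟨Finset.subset_univ _, ?_⟩
    rw [un_mk, Finset.card_union_of_disjoint hVW.2, V.2.1, W.2.1]
    ring
  · rintro ⟨-, hZ⟩
    obtain ⟨V, W, hU, hd, hV, hW, hi⟩ := exi n k hk Z hZ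
    have hst : ∀ A B : Finset (ZMod n), A ∪ B = Z → Disjoint A B → Ilc A B → Stable A := by
      intro A B hAB hdis hil i hi1 hi2
      have h1 := hil i (Finset.mem_union_left _ hi1) 1 le_rfl (by
        rw [Nat.cast_one]
        exact Finset.mem_union_left _ hi2) (fun s h1 h2 => by omega)
      rw [Nat.cast_one] at h1
      exact Finset.disjoint_left.1 hdis hi2 (h1.1 hi1)
    have hne : (⟨V, hV, hst V W hU hd hi⟩ : Vert n k) ≠
        ⟨W, hW, hst W V (by rw [Finset.union_comm]; exact hU) hd.symm (ilc_symm hd hi)⟩ := by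
      intro h
      have h1 : V = W := congrArg Subtype.val h
      rw [← h1] at hd
      have h2 : V = ∅ := Finset.disjoint_self_iff_empty V |>.1 hd
      rw [h2, Finset.card_empty] at hV
      omega
    exact ⟨_, ⟨⟨V, hV, hst V W hU hd hi⟩,
      ⟨W, hW, hst W V (by rw [Finset.union_comm]; exact hU) hd.symm (ilc_symm hd hi)⟩, rfl,
      ⟨hne, hd⟩, hi⟩, hU⟩

/-- the assembly -/
theorem main (fib : S_FIB) (exi : S_EXI) (cnt : S_CNT) (inq : S_INQ) (crt : S_CRT) (k d : ℕ)
    (hk : 9 ≤ k) (hd : d ^ 2 ≤ k) :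
    (IEdges (2 * k + d) k).ncard = (2 * k + d).choose d ∧
    k ^ 2 * {e ∈ IEdges (2 * k + d) k | ¬ Crit (2 * k + d) k e}.ncard ≤
      d ^ 4 * (2 * k + d).choose d ∧
    {e ∈ IEdges (2 * k + d) k | ¬ Crit (2 * k + d) k e}.ncard ≤
      ((2 * k + d) ^ 2 + (2 * k + d) * (2 * d) ^ 2) * (2 * k + d - 4).choose (2 * k) ∧
    ∀ V W : Vert (2 * k + d) k, (SG (2 * k + d) k).Adj V W → Interlacing V.1 W.1 →
      ¬ Bad d (V.1 ∪ W.1) → Crit (2 * k + d) k s(V, W) := by
  classical
  obtain ⟨n, hn⟩ : ∃ n, n = 2 * k + d := ⟨_, rfl⟩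
  rw [← hn]
  have : NeZero n := ⟨by omega⟩
  have hch : n.choose d = n.choose (2 * k) := by
    rw [hn]
    exact (Nat.choose_symm_add).symm
  have hcrit : ∀ V W : Vert n k, (SG n k).Adj V W → Interlacing V.1 W.1 →
      ¬ Bad d (V.1 ∪ W.1) → Crit n k s(V, W) := by
    intro V W hVW hi hb
    have h := crt n k d hk hd hn V W hVW hi hb
    unfold Crit
    by_contra hlt
    rw [not_lt] at hlt
    have h1 := SimpleGraph.chromaticNumber_le_iff_colorable.1 (hlt.trans h.chromaticNumber_le)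
    have h2 := schrijver_le (n := n) (k := k) (by omega) (by omega) (by omega) h1
    omega
  have hinj := un_inj fib (n := n) (k := k) (by omega)
  have hcard : (IEdges n k).ncard = n.choose d := by
    rw [← Set.ncard_image_of_injOn hinj, un_image exi (by omega), Set.ncard_coe_finset,
      Finset.card_powersetCard, Finset.card_univ, ZMod.card, hch]
  have hbd : {e ∈ IEdges n k | ¬ Crit n k e}.ncard ≤
      (n ^ 2 + n * (2 * d) ^ 2) * (n - 4).choose (2 * k) := by
    rw [← Set.ncard_image_of_injOn (hinj.mono (fun e he => he.1))]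
    have hsub : un n k '' {e ∈ IEdges n k | ¬ Crit n k e} ⊆
        ↑((Finset.powersetCard (2 * k) (Finset.univ : Finset (ZMod n))).filter (Bad d)) := by
      rintro _ ⟨e, ⟨he, hne⟩, rfl⟩
      rw [Finset.mem_coe, Finset.mem_filter]
      refine ⟨?_, ?_⟩
      · have h1 : un n k e ∈ un n k '' IEdges n k := ⟨e, he, rfl⟩
        rw [un_image exi (by omega)] at h1
        exact h1
      · obtain ⟨V, W, rfl, hVW, hi⟩ := he
        by_contra hb
        exact hne (hcrit V W hVW hi hb)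
    refine (Set.ncard_le_ncard hsub (Finset.finite_toSet _)).trans ?_
    rw [Set.ncard_coe_finset]
    have h2 : d ≤ 1 ∨ 2 * d ≤ d ^ 2 := by
      rcases Nat.lt_or_ge d 2 with h | h
      · left; omega
      · right; nlinarith
    refine cnt n k d (by omega) (by omega) _ ?_
    intro Z hZ
    rw [Finset.mem_filter, Finset.mem_powersetCard] at hZ
    exact ⟨hZ.1.2, hZ.2⟩
  refine ⟨hcard, ?_, hbd, hcrit⟩
  refine (Nat.mul_le_mul_left _ hbd).trans ?_
  have h := inq k d hk hd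
  rw [← hn] at h
  rw [hch]
  exact h

end Pool.Agent.P8H69.IE
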