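import Mathlib

/-!
# Project IE (MP_42f12b_co): almost all interlacing edges of Schrijver graphs are critical

THEOREM. Let `k ≥ 9` and `d² ≤ k`, `n = 2k + d`. The Schrijver graph `SG(n,k)` has `C(n,d)` interlacing edges, and at most the
proportion `d⁴ / k²` of them is not critical; more precisely an interlacing edge `VW` is critical unless `Bad d (V ∪ W)`.

All packages but CRT need only Mathlib. `Ilc` is the definition of `Pool.Agent.X80.SG.Interlacing`.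
-/

set_option autoImplicit false

open Finset

namespace Pool.Agent.P8H69.IE

/-- the elements of `V ∪ W` lie alternately in `V` and in `W` -/
def Ilc {n : ℕ} (V W : Finset (ZMod n)) : Prop :=
  ∀ y, y ∈ V ∪ W → ∀ r : ℕ, 1 ≤ r → y + (r : ZMod n) ∈ V ∪ W →
    (∀ s : ℕ, 1 ≤ s → s < r → y + (s : ZMod n) ∉ V ∪ W) → (y ∈ V ↔ y + (r : ZMod n) ∈ W)

/-- the exceptional sets: two disjoint pairs of consecutive free elements, or a pair of consecutive free elements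
with further free elements near it on both sides -/
def Bad {n : ℕ} (d : ℕ) (Z : Finset (ZMod n)) : Prop :=
  ∃ i, i ∉ Z ∧ i + 1 ∉ Z ∧
    ((∃ j, j ∉ Z ∧ j + 1 ∉ Z ∧ j ≠ i ∧ j ≠ i + 1 ∧ j + 1 ≠ i) ∨
     (∃ s t : ℕ, s < 2 * d ∧ t < 2 * d ∧ i + 2 + (s : ZMod n) ∉ Z ∧ i - 1 - (t : ZMod n) ∉ Z))

/-- FIB (50 lines). Show `z + s ∈ Z → (z + s ∈ V ↔ z + s ∈ V')` for `Z = V ∪ W` and all `s : ℕ` by strong induction on `s`: for `s ≥ 1` take
the largest `s' < s` with `z + s' ∈ Z` (`s' = 0` is one) and use `Ilc` for `y = z + s'`, `r = s - s'`. -/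
def S_FIB : Prop := ∀ (n : ℕ) [NeZero n] (V W V' W' : Finset (ZMod n)), Disjoint V W → Disjoint V' W' → Ilc V W → Ilc V' W' →
  V ∪ W = V' ∪ W' → ∀ z ∈ V ∪ W, (z ∈ V ↔ z ∈ V') → V = V' ∧ W = W'

/-- EXI (120 lines). `f z = #{y ∈ Z | y.val < z.val}` is injective on `Z` with image `range (2k)`; `V` is the set of the `z ∈ Z`
with `f z` even and `W` the rest. `Ilc`: if `y.val + r < n` then `f (y + r) = f y + 1`; otherwise `r < n` (if `r > n` then `y + n = y ∈ Z` is in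
between; if `r = n` then `Z = {y}`, but `Z` has `2k ≥ 2` elements), `f y = 2k - 1` and `f (y + r) = 0`. -/
def S_EXI : Prop := ∀ (n k : ℕ) [NeZero n], 1 ≤ k → ∀ Z : Finset (ZMod n), Z.card = 2 * k →
  ∃ V W : Finset (ZMod n), V ∪ W = Z ∧ Disjoint V W ∧ V.card = k ∧ W.card = k ∧ Ilc V W

/-- CNT (80 lines). The `Z` with `Bad d Z` are disjoint from one of the sets `T = {i, i+1, j, j+1}` (at most `n²` of them) or
`T = {i, i+1, i+2+s, i-1-t}` (at most `n (2d)²`), all with four elements since `4 d + 3 ≤ n` (`s + t + 3 < n`; `4 ≤ n`);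
`powersetCard (2k) (univ \ T)` has `C(n-4, 2k)` elements. -/
def S_CNT : Prop := ∀ (n k d : ℕ) [NeZero n], 4 ≤ n → 4 * d + 3 ≤ n → ∀ B : Finset (Finset (ZMod n)),
  (∀ Z ∈ B, Z.card = 2 * k ∧ Bad d Z) → B.card ≤ (n ^ 2 + n * (2 * d) ^ 2) * (n - 4).choose (2 * k)

/-- INQ (50 lines). With `n = 2k + d`: `C(n-4, 2k) n (n-1) (n-2) (n-3) = C(n, 2k) d (d-1) (d-2) (d-3)` (for `d ≥ 4`; the left side is `0` for
`d ≤ 3`), `(d - i) n ≤ d (n - i)`, so `C(n-4, 2k) n⁴ ≤ d⁴ C(n, 2k)`; and `k² (n² + 4 d² n) ≤ n⁴` since `2k ≤ n`, `2 d² ≤ n`. -/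
def S_INQ : Prop := ∀ k d : ℕ, 9 ≤ k → d ^ 2 ≤ k →
  k ^ 2 * (((2 * k + d) ^ 2 + (2 * k + d) * (2 * d) ^ 2) * (2 * k + d - 4).choose (2 * k)) ≤ d ^ 4 * (2 * k + d).choose (2 * k)

end Pool.Agent.P8H69.IE
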