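import Pool.Agent.X80.Schrijver5
import Pool.Agent.X80.SchrijverBound
import Pool.Agent.P8H69.IE.Stm

/-! # Project IE: the package CRT -/

set_option autoImplicit false

namespace Pool.Agent.P8H69.IE

open Pool.Agent.X80.SG

/-- CRT (150 lines), adaptation of `colorable_three` in `Pool/Agent/X80/Schrijver5.lean`. Let `Z = V ∪ W`. If no two consecutive elements are
outside `Z`: `colorable_interlacing`. Otherwise `i, i+1 ∉ Z`. All other free elements `x` have free neighbours only if `x = i + 2` or `x = i - 1`
(first part of `¬ Bad`), and not both of `i + 2`, `i - 1` are free (`¬ Bad` for the pairs `i-1, i` and `i+1, i+2`).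
(a) `i + 2`, `i - 1 ∈ Z`: by the second part of `¬ Bad` either all `i + 2 + s`, `s < 2d`, are in `Z` (`colorable_run2`) or all `i - 1 - t`, `t < 2d`, are
(`colorable_run2'`).
(b) exactly one of them is free; rename such that the free run is `i0, i0+1, i0+2`. `¬ Bad` for the pair `i0+1, i0+2` with `t = 0`
(`i0` is free) gives that all `i0 + 3 + s`, `s < 2d`, are in `Z`: `colorable_run` with `z = i0 + 2`, `r = 3` (see `colorable_run3` for the proof of `Setup3`).
The other free elements have one neighbour in `V` and one in `W` (as `hnb` in `colorable_three`). -/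
def S_CRT : Prop := ∀ (n k d : ℕ), 9 ≤ k → d ^ 2 ≤ k → n = 2 * k + d → ∀ V W : Vert n k, (SG n k).Adj V W → Interlacing V.1 W.1 →
  ¬ Bad d (V.1 ∪ W.1) → ((SG n k).deleteEdges {s(V, W)}).Colorable (n - 2 * k + 1)

end Pool.Agent.P8H69.IE
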